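import Mathlib
import Pool.Agent.Lib.MP_bfe3ea_gt.Defs
import Pool.Agent.Lib.MP_bfe3ea_gt.Volume
import Pool.Agent.Lib.MP_bfe3ea_gt.Quadric

set_option autoImplicit false

open scoped RealInnerProductSpace Topology ContDiff
open MeasureTheory Set
open Pool.Agent.Lib.MP_bfe3ea_gt

namespace Pool.Agent.Results.MP_bfe3ea_gt.Counterexample

/-- In every odd dimension `n = 2k+1 ≥ 3` there is a smooth strictly convex locally polynomially
integrable hypersurface which is not contained in any quadric. -/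
theorem result (k : ℕ) (hk : 1 ≤ k) :
    ∃ M : Set (E (2 * k + 1)), IsStrictlyConvexHypersurface M ∧
      LocallyPolynomiallyIntegrable M ∧ ∀ Z : Set (E (2 * k + 1)), IsQuadric Z → ¬ M ⊆ Z := by
  obtain ⟨j, rfl⟩ : ∃ j, k = j + 1 := ⟨k - 1, by omega⟩
  refine ⟨Mset (2 * j), isStrictlyConvex_Mset (m := 2 * j), lpi_Mset j, ?_⟩
  rintro Z ⟨S, b, c, hS, hne, rfl⟩ hsub
  exact hne (not_quadric (m := 2 * j) S hS b c fun x hx => hsub hx)

end Pool.Agent.Results.MP_bfe3ea_gt.Counterexample
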